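import Mathlib
import Pool.Agent.Run7.h520.BU.I

set_option autoImplicit false

namespace Run7.h270.BU
open FirstOrder FirstOrder.Language Run7.h520.BU

lemma Adm.rfl' (n j : ℕ) (b : Bool) : Adm n j b b := Or.inl rfl

lemma tau_exists (n m : ℕ) (hn : 1 ≤ n) (c0 c0' q : Bool) (hA : Adm n (m + 1) c0 c0')
    (hq : c0 = false → q = true) : ∃ τ : Bool, (c0' = false → τ = true) ∧ Adm n m q τ := by
  rcases hA with h | ⟨h1, h2, -, -⟩ | ⟨h1, h2, h3⟩
  · subst h
    exact ⟨q, hq, Or.inl rfl⟩
  · exact ⟨q, fun h => by simp [h2] at h, Or.inl rfl⟩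
  · refine ⟨true, fun _ => rfl, ?_⟩
    cases q
    · exact Or.inr (Or.inl ⟨rfl, rfl, by omega, by omega⟩)
    · exact Or.inl rfl

lemma comb : ∀ (m n : ℕ), 1 ≤ n → ∀ (c0 c0' : Bool), Adm n m c0 c0' →
    ∀ (β : Type) [Finite β] (U U' : β → List (Bool × ℕ)),
    (∀ b, (U b).length = m) → (∀ b, (U' b).length = m) → (∀ b, Good c0' (U' b)) →
    (∀ b, ∀ l ≤ m, Adm n (m - l) (lab c0 ((U b).take l)) (lab c0' ((U' b).take l))) →
    (∀ b b' t, (U b).take t = (U b').take t ↔ (U' b).take t = (U' b').take t) →
    ∀ u : List (Bool × ℕ), u.length = m → Good c0 u →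
    ∃ u' : List (Bool × ℕ), u'.length = m ∧ Good c0' u' ∧
      (∀ l ≤ m, Adm n (m - l) (lab c0 (u.take l)) (lab c0' (u'.take l))) ∧
      ∀ b t, u.take t = (U b).take t ↔ u'.take t = (U' b).take t := by
  intro m
  induction m with
  | zero =>
    intro n hn c0 c0' hA β _ U U' hU hU' hG hadm heq u hu hgu
    have h0 : ∀ b, U b = [] := fun b => List.length_eq_zero_iff.1 (hU b)
    have h0' : ∀ b, U' b = [] := fun b => List.length_eq_zero_iff.1 (hU' b)
    have hu0 : u = [] := List.length_eq_zero_iff.1 hu
    refine ⟨[], rfl, trivial, ?_, ?_⟩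
    · intro l hl
      have : l = 0 := by omega
      subst this
      simpa [lab] using hA
    · intro b t
      simp [h0, h0', hu0]
  | succ m ih =>
    intro n hn c0 c0' hA β _ U U' hU hU' hG hadm heq u hu hgu
    obtain ⟨p, v, rfl⟩ : ∃ p v, u = p :: v := by
      cases u with
      | nil => simp at hu
      | cons p v => exact ⟨p, v, rfl⟩
    have hcU : ∀ b, ∃ q w, U b = q :: w ∧ w.length = m := by
      intro b
      have h := hU b
      cases hUb : U b with
      | nil => rw [hUb] at h; simp at h
      | cons q w => exact ⟨q, w, rfl, by rw [hUb] at h; simpa using h⟩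
    have hcU' : ∀ b, ∃ q w, U' b = q :: w ∧ w.length = m := by
      intro b
      have h := hU' b
      cases hUb : U' b with
      | nil => rw [hUb] at h; simp at h
      | cons q w => exact ⟨q, w, rfl, by rw [hUb] at h; simpa using h⟩
    choose Q W hQW hWl using hcU
    choose Q' W' hQW' hWl' using hcU'
    have hQQ : ∀ b b', Q b = Q b' ↔ Q' b = Q' b' := by
      intro b b'
      have := heq b b' 1
      rw [hQW, hQW, hQW', hQW'] at this
      simpa using this
    have hgu' : (c0 = false → p.1 = true) ∧ Good p.1 v := hgu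
    have hvl : v.length = m := by simpa using hu
    -- the head
    obtain ⟨p', hp1, hp2, hp3⟩ : ∃ p' : Bool × ℕ, (c0' = false → p'.1 = true) ∧
        Adm n m p.1 p'.1 ∧ ∀ b, Q b = p ↔ Q' b = p' := by
      by_cases hne : ∃ b0, Q b0 = p
      · obtain ⟨b0, hb0⟩ := hne
        refine ⟨Q' b0, ?_, ?_, ?_⟩
        · have := hG b0
          rw [hQW'] at this
          exact this.1
        · have := hadm b0 1 (by omega)
          rw [hQW, hQW'] at this
          simp only [List.take_succ_cons, List.take_zero, lab, Nat.add_sub_cancel] at this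
          rw [hb0] at this
          exact this
        · intro b
          rw [← hb0]
          exact hQQ b b0
      · push Not at hne
        obtain ⟨τ, h1, h2⟩ := tau_exists n m hn c0 c0' p.1 hA hgu'.1
        obtain ⟨N, hN⟩ := (Set.finite_range (fun b => (Q' b).2)).exists_notMem
        refine ⟨(τ, N), h1, h2, fun b => ⟨fun h => absurd h (hne b), fun h => ?_⟩⟩
        exact absurd ⟨b, by simp [h]⟩ hN
    -- the tail
    let β0 : Type := {b : β // Q b = p}
    have hb0 : ∀ b : β0, U b.1 = p :: W b.1 := fun b => by rw [hQW, b.2]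
    have hb0' : ∀ b : β0, U' b.1 = p' :: W' b.1 := fun b => by rw [hQW', (hp3 b.1).1 b.2]
    obtain ⟨v', hv1, hv2, hv3, hv4⟩ := ih n hn p.1 p'.1 hp2 β0 (fun b => W b.1) (fun b => W' b.1)
      (fun b => hWl _) (fun b => hWl' _)
      (fun b => by
        have := hG b.1
        rw [hb0'] at this
        exact this.2)
      (fun b l hl => by
        have := hadm b.1 (l + 1) (by omega)
        rw [hb0, hb0'] at this
        simpa [lab, Nat.add_sub_add_right] using this)
      (fun b b' t => by
        have := heq b.1 b'.1 (t + 1)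
        rw [hb0, hb0', hb0, hb0'] at this
        simpa using this)
      v hvl hgu'.2
    refine ⟨p' :: v', by simp [hv1], ⟨hp1, hv2⟩, ?_, ?_⟩
    · intro l hl
      cases l with
      | zero => simpa [lab] using hA
      | succ l =>
        have := hv3 l (by omega)
        simpa [lab, Nat.add_sub_add_right] using this
    · intro b t
      cases t with
      | zero => simp
      | succ t =>
        rw [hQW, hQW']
        simp only [List.take_succ_cons, List.cons.injEq]
        by_cases hb : Q b = p
        · have h4 := hv4 ⟨b, hb⟩ t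
          have hb' := (hp3 b).1 hb
          simp only [hb, hb', true_and]
          exact h4
        · have hb' : Q' b ≠ p' := fun h => hb ((hp3 b).2 h)
          constructor
          · rintro ⟨h, -⟩
            exact absurd h.symm hb
          · rintro ⟨h, -⟩
            exact absurd h.symm hb'

lemma ER_some (i i0 k0 i1 k1 : ℕ) (u w : List (Bool × ℕ)) :
    ER i (Sum.inr (some (i0, k0, u))) (Sum.inr (some (i1, k1, w))) ↔
      (i ≤ i0 ∧ i ≤ i1) ∨ (i0 = i1 ∧ k0 = k1 ∧ u.take (i - i0 - 1) = w.take (i - i0 - 1)) := by
  show (∀ l < i, cd (some (i0, k0, u)) l = cd (some (i1, k1, w)) l) ↔ _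
  constructor
  · intro h
    by_cases hi : i ≤ i0 ∧ i ≤ i1
    · exact Or.inl hi
    · right
      have h01 : i0 = i1 := by
        rcases lt_trichotomy i0 i1 with hlt | heq | hgt
        · exfalso
          have := h i0 (by omega)
          simp [cd, hlt] at this
        · exact heq
        · exfalso
          have := h i1 (by omega)
          simp [cd, hgt] at this
      subst h01
      have hk : k0 = k1 := by
        have := h i0 (by omega)
        simpa [cd] using this
      refine ⟨rfl, hk, ?_⟩
      apply List.ext_getElem?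
      intro j
      rw [List.getElem?_take, List.getElem?_take]
      split_ifs with hj
      · have := h (i0 + 1 + j) (by omega)
        have e1 : ¬ (i0 + 1 + j < i0) := by omega
        have e2 : ¬ (i0 + 1 + j = i0) := by omega
        have e3 : i0 + 1 + j - i0 - 1 = j := by omega
        simp only [cd, e1, e2, if_false, e3, Option.some.injEq, Sum.inr.injEq] at this
        exact this
      · rfl
  · rintro (h | ⟨rfl, rfl, h⟩)
    · intro l hl
      have e1 : l < i0 := by omega
      have e2 : l < i1 := by omega
      simp [cd, e1, e2]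
    · intro l hl
      by_cases e1 : l < i0
      · simp [cd, e1]
      · by_cases e2 : l = i0
        · simp [cd, e2]
        · have h' := congrArg (fun z => z[l - i0 - 1]?) h
          simp only [List.getElem?_take] at h'
          rw [if_pos (by omega), if_pos (by omega)] at h'
          simp only [cd, e1, e2, if_false, h']

lemma ER_none_some (i i1 k1 : ℕ) (w : List (Bool × ℕ)) :
    ER i (Sum.inr none) (Sum.inr (some (i1, k1, w))) ↔ i ≤ i1 := by
  show (∀ l < i, cd none l = cd (some (i1, k1, w)) l) ↔ _
  constructor
  · intro h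
    by_contra hi
    have := h i1 (by omega)
    simp [cd] at this
  · intro h l hl
    have e1 : l < i1 := by omega
    simp [cd, e1]

lemma ER_some_none (i i1 k1 : ℕ) (w : List (Bool × ℕ)) :
    ER i (Sum.inr (some (i1, k1, w))) (Sum.inr none) ↔ i ≤ i1 := by
  show (∀ l < i, cd (some (i1, k1, w)) l = cd none l) ↔ _
  constructor
  · intro h
    by_contra hi
    have := h i1 (by omega)
    simp [cd] at this
  · intro h l hl
    have e1 : l < i1 := by omega
    simp [cd, e1]

theorem forth : S_FORTH := by
  intro c c' m n hn hcc hA α _ s s' hcot x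
  obtain ⟨hcor, hER⟩ := hcot
  obtain ⟨x, hx⟩ := x
  -- description of s' a
  rcases x with d | _ | ⟨i0, k, u⟩
  · refine ⟨⟨Sum.inl d, trivial⟩, rfl, ?_⟩
    intro i a
    have h := hcor a
    revert h
    rcases (s a).1 with e | _ | ⟨i1, k1, w⟩
    · intro h
      have h' : (s' a).1 = Sum.inl e := h
      rw [h']
    · intro h
      have h' : (s' a).1 = Sum.inr none := h
      rw [h']
    · intro h
      rcases h with ⟨-, h'⟩ | ⟨-, w', h', -⟩
      · rw [h']
      · rw [h']
        exact Iff.rfl
  · refine ⟨⟨Sum.inr none, trivial⟩, rfl, ?_⟩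
    intro i a
    have h := hcor a
    revert h
    rcases (s a).1 with e | _ | ⟨i1, k1, w⟩
    · intro h
      have h' : (s' a).1 = Sum.inl e := h
      rw [h']
    · intro h
      have h' : (s' a).1 = Sum.inr none := h
      rw [h']
    · intro h
      rcases h with ⟨-, h'⟩ | ⟨-, w', h', -⟩
      · rw [h']
      · rw [h']
        show ER i (Sum.inr none) _ ↔ ER i (Sum.inr none) _
        rw [ER_none_some, ER_none_some]
  · by_cases him : i0 = m
    · subst him
      have hx' : u.length = i0 ∧ Good (c i0) u := hx
      -- the indices in the same tree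
      let β : Type := {a : α // ∃ w, (s a).1 = Sum.inr (some (i0, k, w))}
      have hb1 : ∀ b : β, ∃ w, (s b.1).1 = Sum.inr (some (i0, k, w)) := fun b => b.2
      choose U hU using hb1
      have hb2 : ∀ b : β, ∃ w', (s' b.1).1 = Sum.inr (some (i0, k, w')) ∧ w'.length = i0 ∧
          ∀ l ≤ i0, Adm n (i0 - l) (lab (c i0) ((U b).take l)) (lab (c' i0) (w'.take l)) := by
        intro b
        have h := hcor b.1
        rw [hU b] at h
        rcases h with ⟨h, -⟩ | ⟨-, w', h', h2, h3⟩
        · exact absurd rfl h
        · exact ⟨w', h', h2, h3⟩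
      choose U' hU' hUl' hadm using hb2
      have hUl : ∀ b, (U b).length = i0 := by
        intro b
        have h := (s b.1).2
        rw [hU b] at h
        exact h.1
      have hG : ∀ b, Good (c' i0) (U' b) := by
        intro b
        have h := (s' b.1).2
        rw [hU' b] at h
        exact h.2
      have heq : ∀ b b' t, (U b).take t = (U b').take t ↔ (U' b).take t = (U' b').take t := by
        intro b b' t
        have h := hER (i0 + 1 + t) b.1 b'.1
        rw [hU, hU, hU', hU', ER_some, ER_some] at h
        have e1 : i0 + 1 + t - i0 - 1 = t := by omega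
        have e2 : ¬ (i0 + 1 + t ≤ i0) := by omega
        simpa [e1, e2] using h
      obtain ⟨u', h1, h2, h3, h4⟩ := comb i0 n hn (c i0) (c' i0) hA β U U' hUl hUl' hG hadm heq u
        hx'.1 hx'.2
      refine ⟨⟨Sum.inr (some (i0, k, u')), ⟨h1, h2⟩⟩, Or.inr ⟨rfl, u', rfl, h1, h3⟩, ?_⟩
      intro i a
      show ER i (Sum.inr (some (i0, k, u))) _ ↔ ER i (Sum.inr (some (i0, k, u'))) _
      by_cases hab : ∃ w, (s a).1 = Sum.inr (some (i0, k, w))
      · have e1 := hU ⟨a, hab⟩
        have e2 := hU' ⟨a, hab⟩
        have e4 := h4 ⟨a, hab⟩ (i - i0 - 1)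
        simp only at e1 e2
        rw [e1, e2, ER_some, ER_some]
        simp only [true_and]
        exact or_congr Iff.rfl e4
      · have h := hcor a
        revert h hab
        rcases (s a).1 with e | _ | ⟨i1, k1, w⟩
        · intro hab h
          have h' : (s' a).1 = Sum.inl e := h
          rw [h']
          exact Iff.rfl
        · intro hab h
          have h' : (s' a).1 = Sum.inr none := h
          rw [h', ER_some_none, ER_some_none]
        · intro hab h
          have hne : ¬ (i0 = i1 ∧ k = k1) := by
            rintro ⟨rfl, rfl⟩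
            exact hab ⟨w, rfl⟩
          rcases h with ⟨-, h'⟩ | ⟨h0, w', h', -⟩
          · rw [h', ER_some, ER_some]
            exact or_congr Iff.rfl ⟨fun h => absurd ⟨h.1, h.2.1⟩ hne, fun h => absurd ⟨h.1, h.2.1⟩ hne⟩
          · rw [h', ER_some, ER_some]
            exact or_congr Iff.rfl ⟨fun h => absurd ⟨h.1, h.2.1⟩ hne, fun h => absurd ⟨h.1, h.2.1⟩ hne⟩
    · have hx' : u.length = i0 ∧ Good (c i0) u := hx
      refine ⟨⟨Sum.inr (some (i0, k, u)), ⟨hx'.1, by rw [← hcc i0 him]; exact hx'.2⟩⟩,
        Or.inl ⟨him, rfl⟩, ?_⟩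
      intro i a
      show ER i (Sum.inr (some (i0, k, u))) _ ↔ ER i (Sum.inr (some (i0, k, u))) _
      have h := hcor a
      revert h
      rcases (s a).1 with e | _ | ⟨i1, k1, w⟩
      · intro h
        have h' : (s' a).1 = Sum.inl e := h
        rw [h']
      · intro h
        have h' : (s' a).1 = Sum.inr none := h
        rw [h']
      · intro h
        rcases h with ⟨-, h'⟩ | ⟨h0, w', h', -⟩
        · rw [h']
        · subst h0
          rw [h', ER_some, ER_some]
          exact or_congr Iff.rfl ⟨fun h => absurd h.1 him, fun h => absurd h.1 him⟩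

end Run7.h270.BU
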