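import Mathlib
import Pool.Agent.Run7.h520.BU.I

set_option autoImplicit false

namespace Run7.h270.BU
open FirstOrder FirstOrder.Language Run7.h520.BU

theorem tra : S_TRA := by
  intro L α N N' _ _ v v' J K hJqf hKqf hJK hKJ hJf hKb
  have key : ∀ (b : Bool) (n k : ℕ) (φ : L.BoundedFormula α k), Lv b n φ → ∀ s s',
      (J n k s s' → (b = true → φ.Realize v s → φ.Realize v' s') ∧
        (b = false → φ.Realize v' s' → φ.Realize v s)) ∧
      (K n k s s' → (b = true → φ.Realize v' s' → φ.Realize v s) ∧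
        (b = false → φ.Realize v s → φ.Realize v' s')) := by
    intro b n k φ h
    induction h with
    | @qf b n k φ h =>
      intro s s'
      refine ⟨fun hJ => ⟨fun _ => (hJqf _ _ _ _ hJ φ h).1, fun _ => (hJqf _ _ _ _ hJ φ h).2⟩,
        fun hK => ⟨fun _ => (hKqf _ _ _ _ hK φ h).2, fun _ => (hKqf _ _ _ _ hK φ h).1⟩⟩
    | @up b n k φ h ih =>
      intro s s'
      refine ⟨fun hJ => ?_, fun hK => ?_⟩
      · have := (ih s s').2 (hJK _ _ _ _ hJ)
        refine ⟨fun hb => this.2 (by simp [hb]), fun hb => this.1 (by simp [hb])⟩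
      · have := (ih s s').1 (hKJ _ _ _ _ hK)
        refine ⟨fun hb => this.2 (by simp [hb]), fun hb => this.1 (by simp [hb])⟩
    | @ex n k φ h ih =>
      intro s s'
      refine ⟨fun hJ => ⟨fun _ hr => ?_, fun hb => by simp at hb⟩,
        fun hK => ⟨fun _ hr => ?_, fun hb => by simp at hb⟩⟩
      · rw [BoundedFormula.realize_ex] at hr ⊢
        obtain ⟨x, hx⟩ := hr
        obtain ⟨x', hx'⟩ := hJf _ _ _ _ hJ x
        exact ⟨x', ((ih _ _).1 hx').1 rfl hx⟩
      · rw [BoundedFormula.realize_ex] at hr ⊢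
        obtain ⟨x', hx'⟩ := hr
        obtain ⟨x, hx⟩ := hKb _ _ _ _ hK x'
        exact ⟨x, ((ih _ _).2 hx).1 rfl hx'⟩
    | @all n k φ h ih =>
      intro s s'
      refine ⟨fun hJ => ⟨fun hb => by simp at hb, fun _ hr => ?_⟩,
        fun hK => ⟨fun hb => by simp at hb, fun _ hr => ?_⟩⟩
      · rw [BoundedFormula.realize_all] at hr ⊢
        intro x
        obtain ⟨x', hx'⟩ := hJf _ _ _ _ hJ x
        exact ((ih _ _).1 hx').2 rfl (hr x')
      · rw [BoundedFormula.realize_all] at hr ⊢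
        intro x'
        obtain ⟨x, hx⟩ := hKb _ _ _ _ hK x'
        exact ((ih _ _).2 hx).2 rfl (hr x)
  intro n k s s'
  exact ⟨fun hJ φ h => ((key _ _ _ φ h s s').1 hJ).1 rfl,
    fun hJ φ h => ((key _ _ _ φ h s s').1 hJ).2 rfl,
    fun hK φ h => ((key _ _ _ φ h s s').2 hK).1 rfl,
    fun hK φ h => ((key _ _ _ φ h s s').2 hK).2 rfl⟩

end Run7.h270.BU
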